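import Mathlib
import Pool.Agent.H87.IS.Stmts

set_option autoImplicit false

namespace Pool.Agent.H87.IS

open Matrix

namespace QDGAux

/-- A permutation carrying two different points to two different points. -/
theorem exists_perm {σ : Type} [DecidableEq σ] {p q a b : σ} (hpq : p ≠ q) (hab : a ≠ b) :
    ∃ e : Equiv.Perm σ, e p = a ∧ e q = b := by
  have hx : Equiv.swap p a q ≠ a := by
    intro h
    have h2 : Equiv.swap p a q = Equiv.swap p a p := by rw [h, Equiv.swap_apply_left]
    exact hpq ((Equiv.swap p a).injective h2).symm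
  refine ⟨(Equiv.swap p a).trans (Equiv.swap (Equiv.swap p a q) b), ?_, ?_⟩
  · rw [Equiv.trans_apply, Equiv.swap_apply_left]
    exact Equiv.swap_apply_of_ne_of_ne hx.symm hab
  · rw [Equiv.trans_apply]
    exact Equiv.swap_apply_left _ _

/-- Diagonalisation of a symmetric matrix by congruence. -/
theorem diag {k : Type} [Field k] [CharZero k] {σ : Type} [Fintype σ] [DecidableEq σ]
    (H : Matrix σ σ k) (hH : H.IsSymm) :
    ∃ (A : Matrix σ σ k) (d : σ → k), A.det ≠ 0 ∧ A.transpose * H * A = Matrix.diagonal d := by
  classical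
  haveI : Invertible (2 : k) := invertibleOfNonzero two_ne_zero
  have hS : LinearMap.IsSymm (Matrix.toBilin' H) := by
    refine ⟨fun x y => ?_⟩
    simp only [RingHom.id_apply, Matrix.toBilin'_apply']
    rw [dotProduct_comm, ← vecMul_transpose, hH.eq, dotProduct_mulVec]
  obtain ⟨v, hv⟩ := LinearMap.BilinForm.exists_orthogonal_basis hS
  have hcard : Fintype.card (Fin (Module.finrank k (σ → k))) = Fintype.card σ := by simp
  let e : Fin (Module.finrank k (σ → k)) ≃ σ := Fintype.equivOfCardEq hcard
  let w := v.reindex e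
  let A : Matrix σ σ k := Matrix.of fun i j => w j i
  have hcol : A.col = fun j => w j := by
    funext j i
    rfl
  have hunit : IsUnit A := by
    rw [← Matrix.linearIndependent_cols_iff_isUnit, hcol]
    exact w.linearIndependent
  have hent : ∀ i j, (A.transpose * H * A) i j = Matrix.toBilin' H (w i) (w j) := by
    intro i j
    rw [Matrix.toBilin'_apply', Matrix.mul_assoc, Matrix.mul_apply]
    refine Finset.sum_congr rfl fun a _ => ?_
    rfl
  refine ⟨A, fun i => Matrix.toBilin' H (w i) (w i), ?_, ?_⟩
  · exact ((Matrix.isUnit_iff_isUnit_det A).1 hunit).ne_zero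
  · ext i j
    rw [hent]
    by_cases hij : i = j
    · subst hij
      rw [Matrix.diagonal_apply_eq]
    · rw [Matrix.diagonal_apply_ne _ hij]
      have h3 : e.symm i ≠ e.symm j := fun h => hij (e.symm.injective h)
      have h4 := hv h3
      have h5 : Matrix.toBilin' H (v (e.symm i)) (v (e.symm j)) = 0 := h4
      rw [Module.Basis.reindex_apply, Module.Basis.reindex_apply]
      exact h5

end QDGAux

theorem QDG : QDGStmt := by
  intro k _ _ _ σ _ _ H p q hH hpq hr
  classical
  obtain ⟨A, d, hA, hAd⟩ := QDGAux.diag H hH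
  have hAu : IsUnit A.det := isUnit_iff_ne_zero.2 hA
  have hATu : IsUnit A.transpose.det := by rwa [Matrix.det_transpose]
  have hrank : H.rank = Fintype.card {i // d i ≠ 0} := by
    rw [← Matrix.rank_diagonal d, ← hAd, Matrix.rank_mul_eq_left_of_isUnit_det A _ hAu,
      Matrix.rank_mul_eq_right_of_isUnit_det _ _ hATu]
  have hZ : (Finset.univ.filter fun i => d i = 0).card ≤ 2 := by
    have h1 := Finset.card_filter_add_card_filter_not (s := (Finset.univ : Finset σ))
      (fun i => d i = 0)
    rw [Finset.card_univ] at h1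
    have h2 : (Finset.univ.filter fun i => ¬ d i = 0).card = Fintype.card {i // d i ≠ 0} :=
      (Fintype.card_subtype _).symm
    omega
  have h2 : 2 ≤ Fintype.card σ := by
    have : ({p, q} : Finset σ).card = 2 := Finset.card_pair hpq
    rw [← this]
    exact Finset.card_le_univ _
  obtain ⟨T, hT, hTc⟩ := Finset.exists_superset_card_eq hZ h2
  obtain ⟨a, b, hab, rfl⟩ := Finset.card_eq_two.1 hTc
  obtain ⟨e, hep, heq⟩ := QDGAux.exists_perm hpq hab
  have hne : ∀ i, i ≠ p → i ≠ q → d (e i) ≠ 0 := by
    intro i hip hiq h0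
    have h3 : e i ∈ ({a, b} : Finset σ) := hT (by simpa using h0)
    rw [Finset.mem_insert, Finset.mem_singleton] at h3
    rcases h3 with h3 | h3
    · exact hip (e.injective (h3.trans hep.symm))
    · exact hiq (e.injective (h3.trans heq.symm))
  have hc : ∀ i, ∃ c : k, c ≠ 0 ∧ (d (e i) ≠ 0 → c * d (e i) * c = 2) := by
    intro i
    by_cases h0 : d (e i) = 0
    · exact ⟨1, one_ne_zero, fun h => absurd h0 h⟩
    · obtain ⟨c, hc⟩ := IsAlgClosed.exists_pow_nat_eq (2 / d (e i)) (n := 2) two_pos
      refine ⟨c, ?_, fun _ => ?_⟩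
      · rintro rfl
        rw [zero_pow two_ne_zero] at hc
        exact (div_ne_zero two_ne_zero h0) hc.symm
      · have : c * d (e i) * c = c ^ 2 * d (e i) := by ring
        rw [this, hc]
        field_simp
  choose c hc0 hc2 using hc
  have hent : ∀ i j, ((A.submatrix id e).transpose * H * (A.submatrix id e)) i j
      = Matrix.diagonal d (e i) (e j) := by
    intro i j
    rw [← hAd]
    have h5 : (A.submatrix id e).transpose * H * (A.submatrix id e)
        = (A.transpose * H * A).submatrix e e := by
      rw [Matrix.transpose_submatrix]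
      rw [← Matrix.submatrix_mul_equiv (A.transpose * H) A e (Equiv.refl σ) e,
        ← Matrix.submatrix_mul_equiv A.transpose H e (Equiv.refl σ) (Equiv.refl σ)]
      rfl
    rw [h5]
    rfl
  refine ⟨A.submatrix id e * Matrix.diagonal c, fun i => c i * d (e i) * c i, ?_, ?_, ?_⟩
  · rw [Matrix.det_mul, Matrix.det_diagonal]
    refine mul_ne_zero ?_ (Finset.prod_ne_zero_iff.2 fun i _ => hc0 i)
    rw [Matrix.det_permute']
    refine mul_ne_zero ?_ hA
    rcases Int.units_eq_one_or (Equiv.Perm.sign e) with h | h <;> simp [h]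
  · have h6 : (A.submatrix id e * Matrix.diagonal c).transpose * H
        * (A.submatrix id e * Matrix.diagonal c)
        = Matrix.diagonal c * ((A.submatrix id e).transpose * H * A.submatrix id e)
          * Matrix.diagonal c := by
      rw [Matrix.transpose_mul, Matrix.diagonal_transpose]
      simp only [Matrix.mul_assoc]
    rw [h6]
    ext i j
    rw [Matrix.mul_diagonal, Matrix.diagonal_mul, hent]
    by_cases hij : i = j
    · subst hij
      rw [Matrix.diagonal_apply_eq, Matrix.diagonal_apply_eq]
    · rw [Matrix.diagonal_apply_ne _ hij,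
        Matrix.diagonal_apply_ne _ (fun h => hij (e.injective h))]
      simp
  · intro i hip hiq
    exact hc2 i (hne i hip hiq)

end Pool.Agent.H87.IS
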